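import Pool.Agent.R552.Hur.Period
import Pool.Agent.H259R3.GP10

set_option autoImplicit false

/-! Periods are additive under free homotopy decompositions; the integral formula. -/

open Set Filter Topology Real MeasureTheory
open scoped Manifold ContDiff unitInterval

namespace Pool.Agent.R552.Hur

variable {E : Type*} [NormedAddCommGroup E] [NormedSpace ℝ E] {H : Type*} [TopologicalSpace H]
variable {𝓜 : ModelWithCorners ℝ E H} {N : Type*} [TopologicalSpace N] [ChartedSpace H N]
variable [IsManifold 𝓜 ∞ N]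

theorem PrimOn.continuous {α : Form 𝓜 N} {f : C(Circle, N)} {G : ℝ → ℝ}
    (hG : PrimOn α (lp f) univ G) : Continuous G :=
  continuous_iff_continuousAt.mpr fun t => hG.continuousAt (mem_univ t) (lp_continuous f).continuousAt

theorem shift_nat {G : ℝ → ℝ} {P : ℝ} (h : ∀ θ, G (θ + 2 * π) - G θ = P) (m : ℤ) (θ : ℝ) :
    G (θ + 2 * π * m) = G θ + m * P := by
  induction m using Int.induction_on with
  | zero => simp
  | succ n ih =>
    have := h (θ + 2 * π * n)
    push_cast at ih ⊢
    rw [show θ + 2 * π * ((n : ℝ) + 1) = θ + 2 * π * n + 2 * π by ring]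
    linarith
  | pred n ih =>
    have := h (θ + 2 * π * (-(n : ℝ) - 1))
    push_cast at ih ⊢
    rw [show θ + 2 * π * (-(n : ℝ) - 1) + 2 * π = θ + 2 * π * -(n : ℝ) by ring] at this
    linarith

/-- the period of the loop run along an arc -/
theorem period_arc {α : closedForms 𝓜 N} {g h : C(Circle, N)} {a b : ℝ} (hab : a < b)
    (hh : ∀ s ∈ Icc (0 : ℝ) 1, h (Circle.exp (2 * π * s)) = g (Circle.exp (a + s * (b - a))))
    {G : ℝ → ℝ} (hG : PrimOn α.1 (lp g) univ G) : period α h = G b - G a := by
  have hpi := Real.pi_pos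
  have h2pi : (0 : ℝ) < 2 * π := by linarith
  set L : ℝ → ℝ := fun θ => G (a + θ / (2 * π) * (b - a)) with hL
  have hlin : Continuous fun θ : ℝ => a + θ / (2 * π) * (b - a) := by fun_prop
  have hlp : ∀ θ ∈ Icc 0 (2 * π), lp h θ = lp g (a + θ / (2 * π) * (b - a)) := by
    intro θ hθ
    have := hh (θ / (2 * π)) ⟨by have := hθ.1; positivity, by rw [div_le_one h2pi]; exact hθ.2⟩
    rw [show 2 * π * (θ / (2 * π)) = θ by field_simp] at this
    exact this
  have h1 : PrimOn α.1 (lp h) (Ioo 0 (2 * π)) L := by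
    intro t ht
    obtain ⟨U, k, hU, hk, hev⟩ := hG (a + t / (2 * π) * (b - a)) (mem_univ _)
    refine ⟨U, k, ?_, hk, ?_⟩
    · rw [hlp t ⟨ht.1.le, ht.2.le⟩]; exact hU
    · have hc := (hlin.tendsto t).eventually hev
      filter_upwards [hc, Ioo_mem_nhds ht.1 ht.2] with s hs hs'
      rw [hlp t ⟨ht.1.le, ht.2.le⟩, hlp s ⟨hs'.1.le, hs'.2.le⟩]
      exact hs
  have hK := primG_spec α h
  set K := primG α h with hKdef
  have hKc : Continuous K := PrimOn.continuous hK
  have hLc : Continuous L := (PrimOn.continuous hG).comp hlin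
  have hmid : π ∈ Ioo 0 (2 * π) := ⟨hpi, by linarith⟩
  have h2 : EqOn (fun t => K t - L t) (fun _ => K π - L π) (Ioo 0 (2 * π)) := fun t ht =>
    PrimOn.unique isOpen_Ioo isPreconnected_Ioo (lp_continuous h) (hK.mono (subset_univ _)) h1 ht hmid
  have h3 : EqOn (fun t => K t - L t) (fun _ => K π - L π) (closure (Ioo 0 (2 * π))) :=
    h2.closure (hKc.sub hLc) continuous_const
  rw [closure_Ioo h2pi.ne] at h3
  have e0 := h3 (left_mem_Icc.mpr h2pi.le)
  have e1 := h3 (right_mem_Icc.mpr h2pi.le)
  simp only [hL] at e0 e1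
  rw [zero_div, zero_mul, add_zero] at e0
  rw [div_self h2pi.ne', one_mul, add_sub_cancel] at e1
  unfold period
  rw [← hKdef]
  linarith

theorem clamp_left {a b : ℝ} (hab : a ≤ b) {s : ℝ} (h : s ≤ a) : (projIcc a b hab s : ℝ) = a := by
  rw [projIcc_of_le_left hab h]

theorem clamp_right {a b : ℝ} (hab : a ≤ b) {s : ℝ} (h : b ≤ s) : (projIcc a b hab s : ℝ) = b := by
  rw [projIcc_of_right_le hab h]

/-- additivity over arcs contained in one turn -/
theorem incr_arcs {α : closedForms 𝓜 N} {g : C(Circle, N)} {k : ℕ} {θ0 : ℝ} (a b : Fin k → ℝ)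
    (hab : ∀ i, a i < b i) (h0 : ∀ i, θ0 ≤ a i) (h1 : ∀ i, b i ≤ θ0 + 2 * π)
    (hdis : ∀ i j, i ≠ j → Disjoint (Icc (a i) (b i)) (Icc (a j) (b j))) {p : N}
    (hp : ∀ s ∈ Ico θ0 (θ0 + 2 * π), (∀ i, s ∉ Ioo (a i) (b i)) → lp g s = p)
    {G : ℝ → ℝ} (hG : PrimOn α.1 (lp g) univ G) :
    G (θ0 + 2 * π) - G θ0 = ∑ i, (G (b i) - G (a i)) := by
  have hpi := Real.pi_pos
  have hGc : Continuous G := PrimOn.continuous hG
  set D : ℝ → ℝ := fun s => G s - ∑ i, G (projIcc (a i) (b i) (hab i).le s) with hD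
  have hDc : Continuous D := by
    refine hGc.sub (continuous_finsetSum _ fun i _ => hGc.comp ?_)
    exact continuous_subtype_val.comp continuous_projIcc
  have hright : ∀ θ ∈ Ico θ0 (θ0 + 2 * π), ∀ᶠ s in 𝓝[≥] θ, D s = D θ := by
    intro θ hθ
    -- clamps away from their arcs
    have hcl : ∀ i, θ ∉ Ico (a i) (b i) → ∀ᶠ s in 𝓝[≥] θ,
        (projIcc (a i) (b i) (hab i).le s : ℝ) = projIcc (a i) (b i) (hab i).le θ := by
      intro i hi
      rcases lt_or_ge θ (a i) with h | h
      · have h2 : ∀ᶠ s in 𝓝[≥] θ, s < a i := mem_nhdsWithin_of_mem_nhds (gt_mem_nhds h)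
        filter_upwards [h2] with s hs
        rw [clamp_left _ hs.le, clamp_left _ h.le]
      · have hb : b i ≤ θ := by
          by_contra hb
          exact hi ⟨h, not_le.mp hb⟩
        filter_upwards [self_mem_nhdsWithin] with s hs
        rw [clamp_right _ (hb.trans hs), clamp_right _ hb]
    by_cases hex : ∃ j, θ ∈ Ico (a j) (b j)
    · obtain ⟨j, hj⟩ := hex
      have hne : ∀ i, i ≠ j → θ ∉ Ico (a i) (b i) := by
        intro i hij hi
        exact Set.disjoint_left.mp (hdis i j hij) ⟨hi.1, hi.2.le⟩ ⟨hj.1, hj.2.le⟩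
      have hall : ∀ᶠ s in 𝓝[≥] θ, ∀ i, i ≠ j →
          (projIcc (a i) (b i) (hab i).le s : ℝ) = projIcc (a i) (b i) (hab i).le θ := by
        rw [Filter.eventually_all]
        intro i
        by_cases hij : i = j
        · exact Filter.Eventually.of_forall fun s h => absurd hij h
        · filter_upwards [hcl i (hne i hij)] with s hs _
          exact hs
      have hlt : ∀ᶠ s in 𝓝[≥] θ, s < b j := mem_nhdsWithin_of_mem_nhds (gt_mem_nhds hj.2)
      filter_upwards [hall, hlt, self_mem_nhdsWithin] with s hs1 hs2 hs3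
      have hs3' : θ ≤ s := hs3
      simp only [hD]
      rw [← Finset.add_sum_erase _ _ (Finset.mem_univ j), ← Finset.add_sum_erase _ _ (Finset.mem_univ j)]
      have e1 : (projIcc (a j) (b j) (hab j).le s : ℝ) = s := by
        rw [projIcc_of_mem (hab j).le ⟨hj.1.trans hs3', hs2.le⟩]
      have e2 : (projIcc (a j) (b j) (hab j).le θ : ℝ) = θ := by
        rw [projIcc_of_mem (hab j).le ⟨hj.1, hj.2.le⟩]
      rw [e1, e2]
      have e3 : ∑ i ∈ Finset.univ.erase j, G (projIcc (a i) (b i) (hab i).le s) =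
          ∑ i ∈ Finset.univ.erase j, G (projIcc (a i) (b i) (hab i).le θ) := by
        refine Finset.sum_congr rfl fun i hi => ?_
        rw [hs1 i (Finset.ne_of_mem_erase hi)]
      rw [e3]
      ring
    · push Not at hex
      have hall : ∀ᶠ s in 𝓝[≥] θ, ∀ i,
          (projIcc (a i) (b i) (hab i).le s : ℝ) = projIcc (a i) (b i) (hab i).le θ := by
        rw [Filter.eventually_all]
        exact fun i => hcl i (hex i)
      have hout : ∀ᶠ s in 𝓝[≥] θ, ∀ i, s ∉ Ioo (a i) (b i) := by
        rw [Filter.eventually_all]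
        intro i
        rcases lt_or_ge θ (a i) with h | h
        · have h2 : ∀ᶠ s in 𝓝[≥] θ, s < a i := mem_nhdsWithin_of_mem_nhds (gt_mem_nhds h)
          filter_upwards [h2] with s hs hs'
          exact absurd hs'.1 (not_lt.mpr hs.le)
        · have hb : b i ≤ θ := by
            by_contra hb
            exact hex i ⟨h, not_le.mp hb⟩
          filter_upwards [self_mem_nhdsWithin] with s hs hs'
          exact absurd hs'.2 (not_lt.mpr (hb.trans hs))
      have hlt : ∀ᶠ s in 𝓝[≥] θ, s < θ0 + 2 * π := mem_nhdsWithin_of_mem_nhds (gt_mem_nhds hθ.2)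
      obtain ⟨U, q, hU, hq, hev⟩ := hG θ (mem_univ _)
      have hev' : ∀ᶠ s in 𝓝[≥] θ, G s - q (lp g s) = G θ - q (lp g θ) :=
        mem_nhdsWithin_of_mem_nhds hev
      have hpθ : lp g θ = p := hp θ hθ (fun i hi => hex i ⟨hi.1.le, hi.2⟩)
      filter_upwards [hall, hout, hlt, hev', self_mem_nhdsWithin] with s hs1 hs2 hs3 hs4 hs5
      have hps : lp g s = p := hp s ⟨hθ.1.trans hs5, hs3⟩ hs2
      rw [hps, hpθ] at hs4
      simp only [hD]
      have e3 : ∑ i, G (projIcc (a i) (b i) (hab i).le s) =
          ∑ i, G (projIcc (a i) (b i) (hab i).le θ) := by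
        refine Finset.sum_congr rfl fun i _ => ?_
        rw [hs1 i]
      rw [e3]
      linarith
  have hconst := constant_of_has_deriv_right_zero (f := D) (a := θ0) (b := θ0 + 2 * π)
    hDc.continuousOn (fun x hx => by
      have := (hasDerivWithinAt_const x (Ici x) (D x)).congr_of_eventuallyEq (hright x hx) rfl
      exact this) (θ0 + 2 * π) (right_mem_Icc.mpr (by linarith))
  simp only [hD] at hconst
  have e1 : ∑ i, G (projIcc (a i) (b i) (hab i).le (θ0 + 2 * π)) = ∑ i, G (b i) :=
    Finset.sum_congr rfl fun i _ => by rw [clamp_right _ (h1 i)]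
  have e2 : ∑ i, G (projIcc (a i) (b i) (hab i).le θ0) = ∑ i, G (a i) :=
    Finset.sum_congr rfl fun i _ => by rw [clamp_left _ (h0 i)]
  rw [e1, e2] at hconst
  rw [Finset.sum_sub_distrib]
  linarith

open Pool.Agent.H259R3.GP in
/-- periods are additive under free homotopy decompositions -/
theorem period_decomp {N : Type*} [PseudoEMetricSpace N] [ChartedSpace H N] [IsManifold 𝓜 ∞ N]
    (α : closedForms 𝓜 N) {f : C(Circle, N)} {k : ℕ}
    {fs : Fin k → C(Circle, N)} (h : FreeDecomp f fs) :
    period α f = ∑ i, period α (fs i) := by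
  have hpi := Real.pi_pos
  obtain ⟨g, a, b, hfg, hab, hdis, ⟨p, hp⟩, hh⟩ := h
  have hG := primG_spec α g
  set G := primG α g with hGdef
  have hP : ∀ θ, G (θ + 2 * π) - G θ = period α g := period_eq hG
  rw [period_homotopic α hfg]
  have hfs : ∀ i, period α (fs i) = G (b i) - G (a i) := by
    intro i
    obtain ⟨hi, h1, h2⟩ := hh i
    rw [← period_homotopic α h2]
    exact period_arc (hab i).1 h1 hG
  rw [Finset.sum_congr rfl fun i _ => hfs i]
  rcases Nat.eq_zero_or_pos k with hk | hk
  · subst hk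
    simp only [Finset.univ_eq_empty, Finset.sum_empty]
    have := incr_arcs (α := α) (g := g) (θ0 := 0) (k := 0) Fin.elim0 Fin.elim0 (fun i => i.elim0)
      (fun i => i.elim0) (fun i => i.elim0) (fun i => i.elim0) (p := p)
      (fun s _ _ => hp _ (by simp)) hG
    simp only [Finset.univ_eq_empty, Finset.sum_empty] at this
    rw [hP] at this
    exact this
  · set i0 : Fin k := ⟨0, hk⟩ with hi0
    set θ0 := a i0 with hθ0
    -- normalization
    have hnorm : ∀ i, ∃ m : ℤ, a i + 2 * π * m ∈ Ico θ0 (θ0 + 2 * π) := by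
      intro i
      have h2pi : (0 : ℝ) < 2 * π := by linarith
      refine ⟨-toIcoDiv h2pi θ0 (a i), ?_⟩
      have := sub_toIcoDiv_zsmul_mem_Ico h2pi θ0 (a i)
      rw [zsmul_eq_mul] at this
      push_cast
      convert this using 1
      ring
    choose m hm using hnorm
    set a' : Fin k → ℝ := fun i => a i + 2 * π * m i with ha'
    set b' : Fin k → ℝ := fun i => b i + 2 * π * m i with hb'
    have hexp : ∀ (θ : ℝ) (n : ℤ), Circle.exp (θ + 2 * π * n) = Circle.exp θ := by
      intro θ n
      have := Circle.periodic_exp.int_mul n θ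
      rw [mul_comm (2 * π) (n : ℝ)]
      exact this
    have hm0 : m i0 = 0 := by
      have h1 := hm i0
      rw [← hθ0] at h1
      have h2 : (0 : ℝ) ≤ 2 * π * m i0 := by linarith [h1.1]
      have h3 : 2 * π * m i0 < 2 * π := by linarith [h1.2]
      have h4 : (0 : ℝ) ≤ m i0 := by
        by_contra hneg
        push Not at hneg
        nlinarith
      have h5 : (m i0 : ℝ) < 1 := by
        by_contra hneg
        push Not at hneg
        nlinarith
      have h6 : (0 : ℤ) ≤ m i0 := by exact_mod_cast h4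
      have h7 : m i0 < 1 := by exact_mod_cast h5
      omega
    have hab' : ∀ i, a' i < b' i := fun i => by
      simp only [ha', hb']; linarith [(hab i).1]
    have him : ∀ i s, s ∈ Icc (a' i) (b' i) → Circle.exp s ∈ Circle.exp '' Icc (a i) (b i) := by
      intro i s hs
      refine ⟨s + 2 * π * ((-m i : ℤ) : ℝ), ?_, hexp s (-m i)⟩
      simp only [ha', hb', mem_Icc] at hs
      push_cast
      constructor <;> linarith [hs.1, hs.2]
    have hdis' : ∀ i j, i ≠ j → Disjoint (Icc (a' i) (b' i)) (Icc (a' j) (b' j)) := by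
      intro i j hij
      rw [Set.disjoint_left]
      intro s hs hs'
      exact Set.disjoint_left.mp (hdis i j hij) (him i s hs) (him j s hs')
    have hb1 : ∀ i, b' i ≤ θ0 + 2 * π := by
      intro i
      by_cases hi : i = i0
      · subst hi
        simp only [hb']
        rw [hm0]
        push_cast
        have := (hab i0).2
        rw [← hθ0] at this
        linarith
      · by_contra hlt
        push Not at hlt
        have h1 : θ0 + 2 * π ∈ Icc (a' i) (b' i) := ⟨(hm i).2.le, hlt.le⟩
        have h2 := him i _ h1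
        have h3 : Circle.exp (θ0 + 2 * π) = Circle.exp θ0 := Circle.periodic_exp θ0
        rw [h3] at h2
        exact Set.disjoint_left.mp (hdis i i0 hi) h2 ⟨θ0, ⟨le_rfl, (hab i0).1.le⟩, rfl⟩
    have hp' : ∀ s ∈ Ico θ0 (θ0 + 2 * π), (∀ i, s ∉ Ioo (a' i) (b' i)) → lp g s = p := by
      intro s hs hsi
      apply hp
      intro hmem
      rw [mem_iUnion] at hmem
      obtain ⟨i, t, ht, hts⟩ := hmem
      rw [Circle.exp_eq_exp] at hts
      obtain ⟨n, hn⟩ := hts
      -- t = s + n * 2π, hence t + 2π m i ∈ (a' i, b' i) and equals s up to a multiple of 2π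
      have ht1 : t + 2 * π * m i ∈ Ioo (a' i) (b' i) := by
        simp only [ha', hb']
        exact ⟨by linarith [ht.1], by linarith [ht.2]⟩
      have ht2 : t + 2 * π * m i ∈ Ico θ0 (θ0 + 2 * π) :=
        ⟨(hm i).1.trans ht1.1.le, ht1.2.trans_le (hb1 i)⟩
      have ht3 : t + 2 * π * m i = s := by
        have hint : t + 2 * π * m i - s = 2 * π * ((n + m i : ℤ) : ℝ) := by
          push_cast
          rw [hn]
          ring
        have h1 : (-1 : ℝ) < ((n + m i : ℤ) : ℝ) := by
          by_contra hneg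
          push Not at hneg
          nlinarith [ht2.1, ht2.2, hs.1, hs.2]
        have h2 : ((n + m i : ℤ) : ℝ) < 1 := by
          by_contra hneg
          push Not at hneg
          nlinarith [ht2.1, ht2.2, hs.1, hs.2]
        have h3 : -1 < n + m i := by exact_mod_cast h1
        have h4 : n + m i < 1 := by exact_mod_cast h2
        have h5 : n + m i = 0 := by omega
        rw [h5] at hint
        push_cast at hint
        linarith
      rw [ht3] at ht1
      exact hsi i ht1
    have := incr_arcs (α := α) (g := g) (θ0 := θ0) a' b' hab' (fun i => (hm i).1) hb1 hdis' hp' hG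
    rw [hP] at this
    rw [this]
    refine Finset.sum_congr rfl fun i _ => ?_
    simp only [ha', hb']
    rw [shift_nat hP, shift_nat hP]
    ring

end Pool.Agent.R552.Hur
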