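import Mathlib

set_option autoImplicit false

/-! Definitions: closed 1-forms on a manifold, primitives along a path, the Hurewicz functional of a
loop, and the scaled gap potential. -/

open Set Filter Topology Real MeasureTheory
open scoped Manifold ContDiff ENNReal

namespace Pool.Agent.R552.Hur

section
variable {E : Type*} [NormedAddCommGroup E] [NormedSpace ℝ E] {H : Type*} [TopologicalSpace H]

/-- `1`-forms on `N`: a covector at each point (no regularity). -/
abbrev Form (𝓜 : ModelWithCorners ℝ E H) (N : Type*) [TopologicalSpace N] [ChartedSpace H N] :=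
  (x : N) → (TangentSpace 𝓜 x →L[ℝ] ℝ)

variable {𝓜 : ModelWithCorners ℝ E H} {N : Type*} [TopologicalSpace N] [ChartedSpace H N]

/-- `g` is a smooth primitive of the `1`-form `α` on the open set `U`, i.e. `dg = α` on `U`. -/
structure IsPrim (α : Form 𝓜 N) (U : Set N) (g : N → ℝ) : Prop where
  isOpen : IsOpen U
  smooth : ContMDiffOn 𝓜 𝓘(ℝ, ℝ) ∞ g U
  deriv : ∀ y ∈ U, (mfderiv 𝓜 𝓘(ℝ, ℝ) g y : TangentSpace 𝓜 y →L[ℝ] ℝ) = α y

/-- Closed `1`-forms: locally the differential of a smooth function (by the Poincaré lemma these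
are the smooth `1`-forms with zero exterior derivative). -/
def IsClosedForm (α : Form 𝓜 N) : Prop := ∀ x, ∃ U g, x ∈ U ∧ IsPrim α U g

/-- `G` is a primitive of `α` along the path `γ` on the set `S` of times: near each time `t ∈ S`
it differs by a constant from `g ∘ γ`, where `g` is a local primitive of `α` around `γ t`. -/
def PrimOn (α : Form 𝓜 N) (γ : ℝ → N) (S : Set ℝ) (G : ℝ → ℝ) : Prop :=
  ∀ t ∈ S, ∃ U g, γ t ∈ U ∧ IsPrim α U g ∧ ∀ᶠ s in 𝓝 t, G s - g (γ s) = G t - g (γ t)

open Classical in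
/-- The Hurewicz functional of the loop `f`: its value at a closed `1`-form `α` is the increment,
over one turn, of a primitive of `α` along the path `θ ↦ f (e^{iθ})` (and `0` if `α` is not
closed). -/
noncomputable def hur (f : C(Circle, N)) (α : Form 𝓜 N) : ℝ :=
  if h : ∃ G : ℝ → ℝ, IsClosedForm α ∧ PrimOn α (fun θ => f (Circle.exp θ)) univ G then
    h.choose (2 * π) - h.choose 0
  else 0
end

/-- The scaled gap potential `∬_{d(f(y),f(x)) ≥ ε} ε / |y - x|^2 dy dx` of a map from the circle
(arc-length measure, Euclidean distance of the plane). -/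
noncomputable def gapPot {N : Type*} [PseudoEMetricSpace N] (ε : ℝ) (f : C(Circle, N)) : ℝ≥0∞ :=
  open Classical in
  ∫⁻ θ in Set.Icc (0 : ℝ) (2 * π), ∫⁻ φ in Set.Icc (0 : ℝ) (2 * π),
    if ENNReal.ofReal ε ≤ edist (f (Circle.exp φ)) (f (Circle.exp θ)) then
      ENNReal.ofReal (ε / ‖(Circle.exp φ : ℂ) - (Circle.exp θ : ℂ)‖ ^ 2) else 0

end Pool.Agent.R552.Hur
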