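import Pool.Agent.R552.Hur.Decomp
import Pool.Agent.Results.MP_09d3b1_an.FreeHomotopy

set_option autoImplicit false
set_option maxHeartbeats 400000
set_option synthInstance.maxHeartbeats 60000

/-! The Hurewicz homomorphism on loops and the gap potential bound. -/

open Set Filter Topology Real MeasureTheory
open scoped Manifold ContDiff unitInterval ENNReal Bundle

namespace Pool.Agent.R552.Hur

variable {E : Type*} [NormedAddCommGroup E] [NormedSpace ℝ E] {H : Type*} [TopologicalSpace H]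

section
variable {𝓜 : ModelWithCorners ℝ E H} {N : Type*} [TopologicalSpace N] [ChartedSpace H N]
variable [IsManifold 𝓜 ∞ N]

theorem hasDerivAt_primG (α : closedForms 𝓜 N) (f : C(Circle, N))
    (hf : ContMDiff 𝓘(ℝ, ℝ) 𝓜 1 (fun θ : ℝ => f (Circle.exp θ))) {g : N → ℝ} {U : Set N}
    (hg : IsPrim α.1 U g) {θ : ℝ} (hU : f (Circle.exp θ) ∈ U) :
    HasDerivAt (fun θ : ℝ => g (f (Circle.exp θ)))
      (α.1 (f (Circle.exp θ)) (mfderiv 𝓘(ℝ, ℝ) 𝓜 (fun θ : ℝ => f (Circle.exp θ)) θ (1 : ℝ))) θ := by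
  have h1 := hg.hasMFDerivAt hU
  have h2 : MDifferentiableAt 𝓘(ℝ, ℝ) 𝓜 (fun θ : ℝ => f (Circle.exp θ)) θ :=
    (hf θ).mdifferentiableAt one_ne_zero
  have h3 := HasMFDerivAt.comp θ (f := fun θ : ℝ => f (Circle.exp θ)) (g := g) h1 h2.hasMFDerivAt
  have h4 := hasMFDerivAt_iff_hasFDerivAt.mp h3
  set L : ℝ →L[ℝ] ℝ := (α.1 (f (Circle.exp θ))).comp
    (mfderiv 𝓘(ℝ, ℝ) 𝓜 (fun θ : ℝ => f (Circle.exp θ)) θ) with hL
  have h6 : HasFDerivAt (fun θ : ℝ => g (f (Circle.exp θ))) L θ := h4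
  exact h6.hasDerivAt

theorem period_integral (α : closedForms 𝓜 N) (f : C(Circle, N))
    (hf : ContMDiff 𝓘(ℝ, ℝ) 𝓜 1 (fun θ : ℝ => f (Circle.exp θ))) :
    period α f = ∫ θ in (0 : ℝ)..(2 * π),
      α.1 (f (Circle.exp θ)) (mfderiv 𝓘(ℝ, ℝ) 𝓜 (fun θ : ℝ => f (Circle.exp θ)) θ (1 : ℝ)) := by
  set v : ℝ → ℝ := fun θ =>
    α.1 (f (Circle.exp θ)) (mfderiv 𝓘(ℝ, ℝ) 𝓜 (fun θ : ℝ => f (Circle.exp θ)) θ (1 : ℝ)) with hv
  have hlc : Continuous fun θ : ℝ => f (Circle.exp θ) := f.continuous.comp Circle.exp.continuous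
  have hder : ∀ θ, HasDerivAt (primG α f) (v θ) θ := by
    intro θ
    obtain ⟨U, g, hU, hg, hev⟩ := primG_spec α f θ (mem_univ _)
    have h1 := hasDerivAt_primG α f hf hg hU
    have h2 : HasDerivAt (fun θ : ℝ => g (f (Circle.exp θ)) + (primG α f θ - g (f (Circle.exp θ)))) (v θ) θ := by
      have h3 : (fun s : ℝ => g (f (Circle.exp s)) + (primG α f s - g (f (Circle.exp s)))) =ᶠ[𝓝 θ]
          fun s : ℝ => g (f (Circle.exp s)) + (primG α f θ - g (f (Circle.exp θ))) := by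
        filter_upwards [hev] with s hs
        unfold lp at hs
        rw [hs]
      exact (h1.add_const _).congr_of_eventuallyEq h3
    refine h2.congr_of_eventuallyEq ?_
    filter_upwards with s
    ring
  have hcont : Continuous v := by
    rw [continuous_iff_continuousAt]
    intro θ
    obtain ⟨U, g, hU, hg⟩ := α.2 (f (Circle.exp θ))
    set S := (fun θ : ℝ => f (Circle.exp θ)) ⁻¹' U with hS
    have hSo : IsOpen S := hg.isOpen.preimage hlc
    have h1 : ContMDiffOn 𝓘(ℝ, ℝ) 𝓘(ℝ, ℝ) 1 (fun θ : ℝ => g (f (Circle.exp θ))) S :=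
      (hg.smooth.of_le (by exact_mod_cast le_top)).comp hf.contMDiffOn (fun x hx => hx)
    have h2 : ContDiffOn ℝ 1 (fun θ : ℝ => g (f (Circle.exp θ))) S := contMDiffOn_iff_contDiffOn.mp h1
    have h3 := h2.continuousOn_deriv_of_isOpen hSo le_rfl
    have h4 : EqOn v (deriv fun θ : ℝ => g (f (Circle.exp θ))) S := fun s hs =>
      (hasDerivAt_primG α f hf hg hs).deriv.symm
    exact (h3.congr h4).continuousAt (hSo.mem_nhds hU)
  have h := intervalIntegral.integral_eq_sub_of_hasDerivAt (a := 0) (b := 2 * π)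
    (fun θ _ => hder θ) (hcont.intervalIntegrable _ _)
  rw [h]
  rfl

theorem hur_eq (f : C(Circle, N)) {α : Form 𝓜 N} (hα : IsClosedForm α) :
    hur f α = period (⟨α, hα⟩ : closedForms 𝓜 N) f := by
  have h : ∃ G : ℝ → ℝ, IsClosedForm α ∧ PrimOn α (fun θ => f (Circle.exp θ)) univ G := by
    obtain ⟨G, hG⟩ := exists_global (α := α) hα (lp_continuous f)
    exact ⟨G, hα, hG⟩
  unfold hur
  rw [dif_pos h]
  have := period_eq (α := (⟨α, hα⟩ : closedForms 𝓜 N)) (f := f) (G := h.choose) h.choose_spec.2 0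
  rw [← this, zero_add]

omit [IsManifold 𝓜 ∞ N] in
theorem hur_not (f : C(Circle, N)) {α : Form 𝓜 N} (hα : ¬ IsClosedForm α) : hur f α = 0 := by
  unfold hur
  rw [dif_neg]
  rintro ⟨G, h, _⟩
  exact hα h

theorem hur_homotopic {f g : C(Circle, N)} (h : f.Homotopic g) :
    (hur f : Form 𝓜 N → ℝ) = hur g := by
  funext α
  by_cases hα : IsClosedForm α
  · rw [hur_eq f hα, hur_eq g hα]; exact period_homotopic _ h
  · rw [hur_not f hα, hur_not g hα]

theorem hur_integral (f : C(Circle, N))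
    (hf : ContMDiff 𝓘(ℝ, ℝ) 𝓜 1 (fun θ : ℝ => f (Circle.exp θ))) (α : Form 𝓜 N)
    (hα : IsClosedForm α) :
    hur f α = ∫ θ in (0 : ℝ)..(2 * π),
      α (f (Circle.exp θ)) (mfderiv 𝓘(ℝ, ℝ) 𝓜 (fun θ : ℝ => f (Circle.exp θ)) θ (1 : ℝ)) := by
  rw [hur_eq f hα]
  exact period_integral _ f hf

theorem hur_linear (f : C(Circle, N)) {α β : Form 𝓜 N} (hα : IsClosedForm α) (hβ : IsClosedForm β)
    (c : ℝ) : IsClosedForm (α + c • β) ∧ hur f (α + c • β) = hur f α + c * hur f β := by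
  have h1 : α + c • β ∈ closedForms 𝓜 N :=
    (closedForms 𝓜 N).add_mem hα ((closedForms 𝓜 N).smul_mem c hβ)
  refine ⟨h1, ?_⟩
  rw [hur_eq f h1, hur_eq f hα, hur_eq f hβ, ← period_smul, ← period_add]
  rfl
end

open Pool.Agent.H259R3.GP in
theorem hur_decomp {𝓜 : ModelWithCorners ℝ E H} {N : Type*} [PseudoEMetricSpace N]
    [ChartedSpace H N] [IsManifold 𝓜 ∞ N] {f : C(Circle, N)} {k : ℕ}
    {fs : Fin k → C(Circle, N)} (h : FreeDecomp f fs) :
    (hur f : Form 𝓜 N → ℝ) = ∑ i, hur (fs i) := by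
  funext α
  rw [Finset.sum_apply]
  by_cases hα : IsClosedForm α
  · rw [hur_eq f hα, period_decomp _ h]
    exact Finset.sum_congr rfl fun i _ => (hur_eq (fs i) hα).symm
  · rw [hur_not f hα, Finset.sum_eq_zero fun i _ => hur_not (fs i) hα]

open Pool.Agent.H259R3.GP in
theorem gapEnergy_le {N : Type*} [PseudoEMetricSpace N] (ε : ℝ) (f : C(Circle, N)) :
    gapEnergy ε f ≤ gapPot ε f := by
  unfold gapEnergy gapPot
  refine lintegral_mono fun θ => lintegral_mono fun φ => ?_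
  by_cases h : ENNReal.ofReal ε < edist (f (Circle.exp φ)) (f (Circle.exp θ))
  · simp only [if_pos h, if_pos h.le]; exact le_rfl
  · rw [if_neg h]; exact bot_le

theorem main (𝓜 : ModelWithCorners ℝ E H)
    (N : Type*) [EMetricSpace N] [ChartedSpace H N] [IsManifold 𝓜 ∞ N]
    [Bundle.RiemannianBundle (fun x : N => TangentSpace 𝓜 x)]
    [IsContMDiffRiemannianBundle 𝓜 ∞ E (fun x : N => TangentSpace 𝓜 x)]
    [IsRiemannianManifold 𝓜 N] [CompactSpace N] :
    ∃ ε₀ > 0, ∀ ν : Seminorm ℝ (Form 𝓜 N → ℝ),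
      ∃ C : ℝ, 0 < C ∧ ∀ ε : ℝ, 0 < ε → ε < ε₀ → ∀ f : C(Circle, N),
        ENNReal.ofReal (ν (hur f)) ≤ ENNReal.ofReal C * gapPot ε f := by
  obtain ⟨ε₀, hε₀, C0, hC0, F, hF, h⟩ := Pool.Agent.Results.MP_09d3b1_an.FreeHomotopy.result 𝓜 N
  refine ⟨ε₀, hε₀, fun ν => ?_⟩
  obtain ⟨M, hM⟩ : ∃ M : ℝ, ∀ g ∈ F, ν (hur g) ≤ M := by
    obtain ⟨M, hM⟩ := (hF.image fun g => ν (hur g)).bddAbove
    exact ⟨M, fun g hg => hM ⟨g, hg, rfl⟩⟩
  set M' := max M 0 with hM'
  have hM0 : 0 ≤ M' := le_max_right _ _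
  have hMF : ∀ g ∈ F, ν (hur g) ≤ M' := fun g hg => (hM g hg).trans (le_max_left _ _)
  refine ⟨C0 * M' + 1, by positivity, fun ε hε hεε₀ f => ?_⟩
  by_cases hinf : gapPot ε f = ⊤
  · rw [hinf, ENNReal.mul_top]
    · exact le_top
    · exact (ENNReal.ofReal_pos.mpr (by positivity)).ne'
  · have key : ∀ l > 0, gapPot ε f ≤ ENNReal.ofReal l → ν (hur f) ≤ C0 * M' * l := by
      intro l hl hle
      obtain ⟨k, hk, fs, hfs, hdec⟩ := h l hl ε hε hεε₀ f ((gapEnergy_le ε f).trans hle)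
      rw [hur_decomp hdec]
      calc ν (∑ i, hur (fs i)) ≤ ∑ i, ν (hur (fs i)) := Finset.le_sum_of_subadditive ν (map_zero ν).le (map_add_le_add ν) _ _
        _ ≤ ∑ _i : Fin k, M' := Finset.sum_le_sum fun i _ => hMF _ (hfs i)
        _ = k * M' := by rw [Finset.sum_const, Finset.card_univ, Fintype.card_fin, nsmul_eq_mul]
        _ ≤ C0 * l * M' := mul_le_mul_of_nonneg_right hk hM0
        _ = C0 * M' * l := by ring
    set e := (gapPot ε f).toReal with he
    have he0 : 0 ≤ e := ENNReal.toReal_nonneg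
    have hee : gapPot ε f = ENNReal.ofReal e := (ENNReal.ofReal_toReal hinf).symm
    have h1 : ν (hur f) ≤ (C0 * M' + 1) * e := by
      refine le_of_forall_pos_le_add fun η hη => ?_
      have hpos : 0 < η / (C0 * M' + 1) := by positivity
      have h2 := key (e + η / (C0 * M' + 1)) (by linarith) (by
        rw [hee]; exact ENNReal.ofReal_le_ofReal (by linarith))
      have h3 : C0 * M' * (η / (C0 * M' + 1)) ≤ η := by
        rw [mul_div_assoc', div_le_iff₀ (by positivity)]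
        nlinarith
      nlinarith
    rw [hee, ← ENNReal.ofReal_mul (by positivity)]
    exact ENNReal.ofReal_le_ofReal h1

end Pool.Agent.R552.Hur
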