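import Pool.Agent.R552.Hur.Prim

set_option autoImplicit false

/-! Periods of closed 1-forms along loops: definition, homotopy invariance, integral formula. -/

open Set Filter Topology Real
open scoped Manifold ContDiff unitInterval

namespace Pool.Agent.R552.Hur

variable {E : Type*} [NormedAddCommGroup E] [NormedSpace ℝ E] {H : Type*} [TopologicalSpace H]
variable {𝓜 : ModelWithCorners ℝ E H} {N : Type*} [TopologicalSpace N] [ChartedSpace H N]

/-- the path `θ ↦ f (e^{iθ})` -/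
noncomputable def lp (f : C(Circle, N)) (θ : ℝ) : N := f (Circle.exp θ)

omit [ChartedSpace H N] in
theorem lp_continuous (f : C(Circle, N)) : Continuous (lp f) :=
  f.continuous.comp Circle.exp.continuous

omit [ChartedSpace H N] in
theorem lp_periodic (f : C(Circle, N)) (θ : ℝ) : lp f (θ + 2 * π) = lp f θ := by
  unfold lp
  rw [Circle.periodic_exp θ]

variable [IsManifold 𝓜 ∞ N]

/-- a primitive of the closed form `α` along the loop `f` -/
noncomputable def primG (α : closedForms 𝓜 N) (f : C(Circle, N)) : ℝ → ℝ :=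
  (exists_global α.2 (lp_continuous f)).choose

theorem primG_spec (α : closedForms 𝓜 N) (f : C(Circle, N)) : PrimOn α.1 (lp f) univ (primG α f) :=
  (exists_global α.2 (lp_continuous f)).choose_spec

/-- The period of the closed form `α` along the loop `f`: the increment, over one turn, of a
primitive of `α` along `f`. -/
noncomputable def period (α : closedForms 𝓜 N) (f : C(Circle, N)) : ℝ :=
  primG α f (2 * π) - primG α f 0

theorem period_eq {α : closedForms 𝓜 N} {f : C(Circle, N)} {G : ℝ → ℝ}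
    (hG : PrimOn α.1 (lp f) univ G) (θ : ℝ) : G (θ + 2 * π) - G θ = period α f := by
  have h1 : PrimOn α.1 (lp f) univ (fun t => G (t + 2 * π)) := by
    intro t _
    obtain ⟨U, g, hU, hg, hev⟩ := hG (t + 2 * π) (mem_univ _)
    refine ⟨U, g, by rwa [lp_periodic] at hU, hg, ?_⟩
    have hc : Tendsto (fun s : ℝ => s + 2 * π) (𝓝 t) (𝓝 (t + 2 * π)) :=
      (continuous_add_const _).continuousAt
    filter_upwards [hc.eventually hev] with s hs
    rw [lp_periodic, lp_periodic] at hs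
    exact hs
  have h2 := PrimOn.unique isOpen_univ isPreconnected_univ (lp_continuous f) h1 hG (mem_univ θ) (mem_univ 0)
  have h3 := PrimOn.unique isOpen_univ isPreconnected_univ (lp_continuous f) hG (primG_spec α f)
    (mem_univ (2 * π)) (mem_univ 0)
  simp only [zero_add] at h2
  unfold period
  linarith

theorem period_add (α β : closedForms 𝓜 N) (f : C(Circle, N)) :
    period (α + β) f = period α f + period β f := by
  have h1 : PrimOn (α + β).1 (lp f) univ (fun t => primG α f t + primG β f t) := by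
    intro t ht
    obtain ⟨U, g, hU, hg, hev⟩ := primG_spec α f t ht
    obtain ⟨V, k, hV, hk, hev'⟩ := primG_spec β f t ht
    refine ⟨U ∩ V, _, ⟨hU, hV⟩, hg.add hk, ?_⟩
    filter_upwards [hev, hev'] with s hs hs'
    linarith
  have := period_eq h1 0
  rw [← this]
  unfold period
  simp only [zero_add]
  ring

theorem period_smul (c : ℝ) (α : closedForms 𝓜 N) (f : C(Circle, N)) :
    period (c • α) f = c * period α f := by
  have h1 : PrimOn (c • α).1 (lp f) univ (fun t => c * primG α f t) := by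
    intro t ht
    obtain ⟨U, g, hU, hg, hev⟩ := primG_spec α f t ht
    refine ⟨U, _, hU, hg.smul c, ?_⟩
    filter_upwards [hev] with s hs
    linear_combination c * hs
  have := period_eq h1 0
  rw [← this]
  unfold period
  simp only [zero_add]
  ring

theorem period_exact {α : closedForms 𝓜 N} (hα : α ∈ exactForms 𝓜 N) (f : C(Circle, N)) :
    period α f = 0 := by
  obtain ⟨g, hg⟩ := hα
  have h1 : PrimOn α.1 (lp f) univ (fun t => g (lp f t)) := fun t _ =>
    ⟨univ, g, mem_univ _, hg, Filter.Eventually.of_forall fun s => by simp⟩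
  rw [← period_eq h1 0, lp_periodic, sub_self]

/-! ### homotopy invariance -/

theorem period_locConst (α : closedForms 𝓜 N) {F : ℝ × ℝ → N} (hF : Continuous F)
    (hper : ∀ s, F (s, 2 * π) = F (s, 0)) (G : ℝ → ℝ → ℝ)
    (hG : ∀ s, PrimOn α.1 (fun t => F (s, t)) univ (G s)) (s0 : ℝ) :
    ∀ᶠ s in 𝓝 s0, G s (2 * π) - G s 0 = G s0 (2 * π) - G s0 0 := by
  have hFs : ∀ s, Continuous fun t => F (s, t) := fun s => hF.comp (by fun_prop)
  have hF0 : Continuous fun s => F (s, 0) := hF.comp (by fun_prop)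
  obtain ⟨U0, g0, hU0, hg0⟩ := α.2 (F (s0, 0))
  set A : Set ℝ := {t | ∃ (U : Set N) (g : N → ℝ) (c : ℝ), F (s0, t) ∈ U ∧ IsPrim α.1 U g ∧
    ∀ᶠ p in 𝓝 (s0, t), G p.1 p.2 - G p.1 0 = g (F p) - g0 (F (p.1, 0)) + c} with hA
  -- rectangles
  have rect : ∀ t : ℝ, ∀ U : Set N, IsOpen U → F (s0, t) ∈ U →
      ∃ δ > 0, ∀ s ∈ Ioo (s0 - δ) (s0 + δ), ∀ r ∈ Ioo (t - δ) (t + δ), F (s, r) ∈ U := by
    intro t U hU hm
    obtain ⟨δ, hδ, hsub⟩ := Metric.mem_nhds_iff.mp (hF.continuousAt.preimage_mem_nhds (hU.mem_nhds hm))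
    refine ⟨δ, hδ, fun s hs r hr => ?_⟩
    apply hsub
    rw [Metric.mem_ball, Prod.dist_eq, max_lt_iff, Real.dist_eq, Real.dist_eq, abs_lt, abs_lt]
    refine ⟨⟨by linarith [hs.1], by linarith [hs.2]⟩, ⟨by linarith [hr.1], by linarith [hr.2]⟩⟩
  have h0A : (0 : ℝ) ∈ A := by
    obtain ⟨δ, hδ, hR⟩ := rect 0 U0 hg0.isOpen hU0
    refine ⟨U0, g0, 0, hU0, hg0, ?_⟩
    have : Ioo (s0 - δ) (s0 + δ) ×ˢ Ioo (0 - δ) (0 + δ) ∈ 𝓝 (s0, (0 : ℝ)) :=
      prod_mem_nhds (Ioo_mem_nhds (by linarith) (by linarith)) (Ioo_mem_nhds (by linarith) (by linarith))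
    filter_upwards [this] with p hp
    have := PrimOn.vert isOpen_Ioo isPreconnected_Ioo (hFs p.1) ((hG p.1).mono (subset_univ _)) hg0
      (fun r hr => hR p.1 hp.1 r hr) hp.2 (show (0 : ℝ) ∈ Ioo (0 - δ) (0 + δ) from ⟨by linarith, by linarith⟩)
    simp only [Prod.mk.eta] at this
    linarith
  have step : ∀ t : ℝ, ∃ δ > 0, ∀ t1 ∈ Ioo (t - δ) (t + δ), t1 ∈ A → ∀ t2 ∈ Ioo (t - δ) (t + δ), t2 ∈ A := by
    intro t
    obtain ⟨U, g, hU, hg⟩ := α.2 (F (s0, t))
    obtain ⟨δ, hδ, hR⟩ := rect t U hg.isOpen hU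
    refine ⟨δ, hδ, fun t1 ht1 ⟨U1, g1, c1, hU1, hg1, hev⟩ t2 ht2 => ?_⟩
    have hs0 : s0 ∈ Ioo (s0 - δ) (s0 + δ) := ⟨by linarith, by linarith⟩
    have hU' : F (s0, t1) ∈ U := hR s0 hs0 t1 ht1
    have e1 : ∀ᶠ s in 𝓝 s0, g1 (F (s, t1)) - g (F (s, t1)) = g1 (F (s0, t1)) - g (F (s0, t1)) := by
      have hc : ContinuousAt (fun s => F (s, t1)) s0 := (hF.comp (by fun_prop)).continuousAt
      exact hc.eventually (hg1.sub_const hg hU1 hU')
    have e2 : ∀ᶠ s in 𝓝 s0, G s t1 - G s 0 = g1 (F (s, t1)) - g0 (F (s, 0)) + c1 := by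
      have hc : Tendsto (fun s : ℝ => (s, t1)) (𝓝 s0) (𝓝 (s0, t1)) :=
        (show Continuous fun s : ℝ => (s, t1) by fun_prop).continuousAt
      exact hc.eventually hev
    refine ⟨U, g, g1 (F (s0, t1)) - g (F (s0, t1)) + c1, hR s0 hs0 t2 ht2, hg, ?_⟩
    have e3 : ∀ᶠ p in 𝓝 (s0, t2), (p.1 ∈ Ioo (s0 - δ) (s0 + δ) ∧
        g1 (F (p.1, t1)) - g (F (p.1, t1)) = g1 (F (s0, t1)) - g (F (s0, t1)) ∧
        G p.1 t1 - G p.1 0 = g1 (F (p.1, t1)) - g0 (F (p.1, 0)) + c1) := by
      have hc : Tendsto (fun p : ℝ × ℝ => p.1) (𝓝 (s0, t2)) (𝓝 s0) := continuous_fst.continuousAt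
      have hI : ∀ᶠ s in 𝓝 s0, s ∈ Ioo (s0 - δ) (s0 + δ) :=
        Ioo_mem_nhds (by linarith) (by linarith)
      exact hc.eventually (hI.and (e1.and e2))
    have e4 : ∀ᶠ p in 𝓝 (s0, t2), p.2 ∈ Ioo (t - δ) (t + δ) := by
      have hc : Tendsto (fun p : ℝ × ℝ => p.2) (𝓝 (s0, t2)) (𝓝 t2) := continuous_snd.continuousAt
      exact hc.eventually (Ioo_mem_nhds ht2.1 ht2.2)
    filter_upwards [e3, e4] with p hp hp2
    obtain ⟨a1, a2, a3⟩ := hp
    have := PrimOn.vert isOpen_Ioo isPreconnected_Ioo (hFs p.1) ((hG p.1).mono (subset_univ _)) hg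
      (fun r hr => hR p.1 a1 r hr) hp2 ht1
    simp only [Prod.mk.eta] at this
    linarith
  have hclopen : IsClopen A := by
    constructor
    · rw [← isOpen_compl_iff, Metric.isOpen_iff]
      intro t ht
      obtain ⟨δ, hδ, h⟩ := step t
      refine ⟨δ, hδ, fun t1 ht1 ht1A => ht (h t1 ?_ ht1A t ⟨by linarith, by linarith⟩)⟩
      rwa [Real.ball_eq_Ioo] at ht1
    · rw [Metric.isOpen_iff]
      intro t ht
      obtain ⟨δ, hδ, h⟩ := step t
      refine ⟨δ, hδ, fun t1 ht1 => h t ⟨by linarith, by linarith⟩ ht t1 ?_⟩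
      rwa [Real.ball_eq_Ioo] at ht1
  have hAuniv : A = univ := hclopen.eq_univ ⟨0, h0A⟩
  obtain ⟨U, g, c, hU, hg, hev⟩ : (2 * π) ∈ A := hAuniv ▸ mem_univ _
  have hU' : F (s0, 0) ∈ U := hper s0 ▸ hU
  have e1 : ∀ᶠ s in 𝓝 s0, g (F (s, 0)) - g0 (F (s, 0)) = g (F (s0, 0)) - g0 (F (s0, 0)) :=
    hF0.continuousAt.eventually (hg.sub_const hg0 hU' hU0)
  have e2 : ∀ᶠ s in 𝓝 s0, G s (2 * π) - G s 0 = g (F (s, 2 * π)) - g0 (F (s, 0)) + c := by
    have hc : Tendsto (fun s : ℝ => (s, 2 * π)) (𝓝 s0) (𝓝 (s0, 2 * π)) :=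
      (show Continuous fun s : ℝ => (s, 2 * π) by fun_prop).continuousAt
    exact hc.eventually hev
  filter_upwards [e1, e2] with s h1 h2
  have h3 := e2.self_of_nhds
  rw [hper] at h2 h3
  linarith

theorem period_homotopic (α : closedForms 𝓜 N) {f g : C(Circle, N)} (h : f.Homotopic g) :
    period α f = period α g := by
  obtain ⟨K⟩ := h
  set F : ℝ × ℝ → N := fun p => K (projIcc 0 1 zero_le_one p.1, Circle.exp p.2) with hF
  have hFc : Continuous F := by
    refine K.continuous.comp ?_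
    exact (continuous_projIcc.comp continuous_fst).prodMk (Circle.exp.continuous.comp continuous_snd)
  set fs : ℝ → C(Circle, N) := fun s => ⟨fun z => K (projIcc 0 1 zero_le_one s, z), by fun_prop⟩ with hfs
  have h1 : ∀ s : ℝ, ∀ᶠ r in 𝓝 s, period α (fs r) = period α (fs s) := by
    intro s
    exact period_locConst α hFc (fun s => by
      simp only [hF]
      have := Circle.periodic_exp 0
      rw [zero_add] at this
      rw [this]) (fun s => primG α (fs s)) (fun s => primG_spec α (fs s)) s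
  have h2 := const_of_loc isOpen_univ isPreconnected_univ (f := fun s => period α (fs s))
    (fun s _ => h1 s) (mem_univ 0) (mem_univ 1)
  have e0 : fs 0 = f := by
    ext z
    simp only [hfs, ContinuousMap.coe_mk]
    rw [projIcc_left]
    exact K.apply_zero z
  have e1 : fs 1 = g := by
    ext z
    simp only [hfs, ContinuousMap.coe_mk]
    rw [projIcc_right]
    exact K.apply_one z
  rw [e0, e1] at h2
  exact h2

end Pool.Agent.R552.Hur
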