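import Pool.Agent.R552.Hur.Defs

set_option autoImplicit false

/-! Closed 1-forms on manifolds, local primitives, and primitives along paths. -/

open Set Filter Topology
open scoped Manifold ContDiff

namespace Pool.Agent.R552.Hur

variable {E : Type*} [NormedAddCommGroup E] [NormedSpace ℝ E] {H : Type*} [TopologicalSpace H]

variable {𝓜 : ModelWithCorners ℝ E H} {N : Type*} [TopologicalSpace N] [ChartedSpace H N]

theorem locConst [IsManifold 𝓜 ∞ N] {h : N → ℝ} {W : Set N} (hW : IsOpen W)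
    (hd : ∀ y ∈ W, HasMFDerivAt 𝓜 𝓘(ℝ, ℝ) h y 0) {x : N} (hx : x ∈ W) :
    ∀ᶠ y in 𝓝 x, h y = h x := by
  haveI : IsManifold 𝓜 1 N := IsManifold.of_le (n := ∞) (by exact_mod_cast le_top)
  set φ := extChartAt 𝓜 x with hφ
  have h1 : φ.target ∩ φ.symm ⁻¹' W ∈ 𝓝[range 𝓜] (φ x) := by
    refine inter_mem (extChartAt_target_mem_nhdsWithin x) ?_
    have : ContinuousWithinAt φ.symm (range 𝓜) (φ x) := (continuousAt_extChartAt_symm x).continuousWithinAt
    exact this.preimage_mem_nhdsWithin (by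
      rw [extChartAt_to_inv]; exact hW.mem_nhds hx)
  obtain ⟨r, hr, hsub⟩ := Metric.mem_nhdsWithin_iff.mp h1
  set s := Metric.ball (φ x) r ∩ range 𝓜 with hs
  have hconv : Convex ℝ s := (convex_ball _ _).inter 𝓜.convex_range
  have hder : ∀ z ∈ s, HasFDerivWithinAt (h ∘ φ.symm) (0 : E →L[ℝ] ℝ) s z := by
    intro z hz
    have hz' := hsub hz
    have h2 : MDifferentiableWithinAt 𝓘(ℝ, E) 𝓜 φ.symm (range 𝓜) z :=
      mdifferentiableWithinAt_extChartAt_symm hz'.1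
    have h3 := (hd _ hz'.2).comp_hasMFDerivWithinAt z h2.hasMFDerivWithinAt
    have h4 := h3.mono (show s ⊆ range 𝓜 from inter_subset_right)
    rw [hasMFDerivWithinAt_iff_hasFDerivWithinAt] at h4
    refine HasFDerivWithinAt.congr_fderiv h4 ?_
    ext v
    rfl
  have hxs : φ x ∈ s := ⟨Metric.mem_ball_self hr, by
    have := (mem_extChartAt_target (I := 𝓜) x)
    exact extChartAt_target_subset_range x this⟩
  have hconst : ∀ z ∈ s, (h ∘ φ.symm) z = (h ∘ φ.symm) (φ x) := by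
    intro z hz
    have := hconv.norm_image_sub_le_of_norm_hasFDerivWithin_le (C := 0) hder (fun z _ => by simp) hxs hz
    rw [zero_mul] at this
    exact sub_eq_zero.mp (norm_le_zero_iff.mp this)
  have h5 : ∀ᶠ y in 𝓝 x, y ∈ φ.source ∧ φ y ∈ Metric.ball (φ x) r := by
    refine Filter.Eventually.and (extChartAt_source_mem_nhds x) ?_
    exact (continuousAt_extChartAt x).preimage_mem_nhds (Metric.ball_mem_nhds _ hr)
  filter_upwards [h5] with y hy
  have h6 := hconst (φ y) ⟨hy.2, extChartAt_target_subset_range x (φ.map_source hy.1)⟩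
  simp only [Function.comp] at h6
  rw [φ.left_inv hy.1, extChartAt_to_inv] at h6
  exact h6

theorem IsPrim.hasMFDerivAt {α : Form 𝓜 N} {U : Set N} {g : N → ℝ}
    (h : IsPrim α U g) {y : N} (hy : y ∈ U) : HasMFDerivAt 𝓜 𝓘(ℝ, ℝ) g y (α y) := by
  have h1 : ContMDiffAt 𝓜 𝓘(ℝ, ℝ) ∞ g y := h.smooth.contMDiffAt (h.isOpen.mem_nhds hy)
  have h2 : MDifferentiableAt 𝓜 𝓘(ℝ, ℝ) g y := h1.mdifferentiableAt (by simp)
  have h3 := h2.hasMFDerivAt
  rw [← h.deriv y hy]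
  exact h3

/-- two local primitives differ by a locally constant function -/
theorem IsPrim.sub_const [IsManifold 𝓜 ∞ N] {α : Form 𝓜 N} {U V : Set N} {g k : N → ℝ}
    (hg : IsPrim α U g) (hk : IsPrim α V k) {x : N} (hU : x ∈ U) (hV : x ∈ V) :
    ∀ᶠ y in 𝓝 x, g y - k y = g x - k x := by
  have := locConst (𝓜 := 𝓜) (h := fun y => g y - k y) (hg.isOpen.inter hk.isOpen) (fun y hy => by
    have h1 : HasMFDerivAt 𝓜 𝓘(ℝ, ℝ) (fun y => g y - k y) y (α y - α y) :=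
      (hg.hasMFDerivAt hy.1).sub (hk.hasMFDerivAt hy.2)
    rw [sub_self] at h1
    exact h1) ⟨hU, hV⟩
  exact this

theorem IsPrim.add {α β : Form 𝓜 N} {U V : Set N} {g k : N → ℝ}
    (hg : IsPrim α U g) (hk : IsPrim β V k) : IsPrim (α + β) (U ∩ V) (fun y => g y + k y) := by
  refine ⟨hg.isOpen.inter hk.isOpen, ?_, fun y hy => ?_⟩
  · exact (hg.smooth.mono inter_subset_left).add (hk.smooth.mono inter_subset_right)
  · exact ((hg.hasMFDerivAt hy.1).add (hk.hasMFDerivAt hy.2)).mfderiv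

theorem IsPrim.smul {α : Form 𝓜 N} {U : Set N} {g : N → ℝ} (c : ℝ)
    (hg : IsPrim α U g) : IsPrim (c • α) U (fun y => c * g y) := by
  refine ⟨hg.isOpen, ?_, fun y hy => ?_⟩
  · exact contMDiffOn_const.mul hg.smooth
  · have h := (hg.hasMFDerivAt hy).const_smul c
    exact h.mfderiv

theorem IsPrim.zero : IsPrim (0 : Form 𝓜 N) univ (fun _ => 0) :=
  ⟨isOpen_univ, contMDiffOn_const, fun y _ => mfderiv_const⟩

variable (𝓜 N) in
/-- The closed `1`-forms: the `1`-forms which are locally the differential of a smooth function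
(by the Poincaré lemma these are the smooth `1`-forms with zero exterior derivative). -/
def closedForms : Submodule ℝ (Form 𝓜 N) where
  carrier := {α | ∀ x, ∃ U g, x ∈ U ∧ IsPrim α U g}
  add_mem' := by
    intro α β hα hβ x
    obtain ⟨U, g, hx, h⟩ := hα x
    obtain ⟨V, k, hx', h'⟩ := hβ x
    exact ⟨U ∩ V, _, ⟨hx, hx'⟩, h.add h'⟩
  zero_mem' := by
    intro x
    exact ⟨univ, _, mem_univ x, IsPrim.zero⟩
  smul_mem' := by
    intro c α hα x
    obtain ⟨U, g, hx, h⟩ := hα x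
    exact ⟨_, _, hx, h.smul c⟩

variable (𝓜 N) in
/-- The exact `1`-forms: differentials of smooth functions on `N`. -/
def exactForms : Submodule ℝ (closedForms 𝓜 N) where
  carrier := {α | ∃ g, IsPrim α.1 univ g}
  add_mem' := by
    rintro α β ⟨g, h⟩ ⟨k, h'⟩
    have := h.add h'
    rw [univ_inter] at this
    exact ⟨_, this⟩
  zero_mem' := by
    show ∃ g, IsPrim (0 : Form 𝓜 N) univ g
    exact ⟨_, IsPrim.zero⟩
  smul_mem' := by
    rintro c α ⟨g, h⟩
    exact ⟨_, h.smul c⟩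

/-! ### primitives along paths -/

theorem PrimOn.mono {α : Form 𝓜 N} {γ : ℝ → N} {S T : Set ℝ} {G : ℝ → ℝ}
    (h : PrimOn α γ S G) (hT : T ⊆ S) : PrimOn α γ T G := fun t ht => h t (hT ht)

theorem PrimOn.congr {α : Form 𝓜 N} {γ : ℝ → N} {S : Set ℝ} {G K : ℝ → ℝ} (c : ℝ)
    (hS : IsOpen S) (h : PrimOn α γ S G) (hK : ∀ t ∈ S, K t = G t + c) : PrimOn α γ S K := by
  intro t ht
  obtain ⟨U, g, h1, h2, h3⟩ := h t ht
  refine ⟨U, g, h1, h2, ?_⟩
  filter_upwards [h3, hS.mem_nhds ht] with s hs hs'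
  rw [hK s hs', hK t ht]
  linarith

theorem PrimOn.any [IsManifold 𝓜 ∞ N] {α : Form 𝓜 N} {γ : ℝ → N} {S : Set ℝ} {G : ℝ → ℝ}
    (h : PrimOn α γ S G) {t : ℝ} (ht : t ∈ S) (hγ : ContinuousAt γ t) {U : Set N} {g : N → ℝ}
    (hg : IsPrim α U g) (hU : γ t ∈ U) : ∀ᶠ s in 𝓝 t, G s - g (γ s) = G t - g (γ t) := by
  obtain ⟨V, k, h1, h2, h3⟩ := h t ht
  have h4 := hγ.eventually (hg.sub_const h2 hU h1)
  filter_upwards [h3, h4] with s hs hs'
  linarith

theorem const_of_loc {S : Set ℝ} (hS : IsOpen S) (hS' : IsPreconnected S) {f : ℝ → ℝ}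
    (h : ∀ t ∈ S, ∀ᶠ s in 𝓝 t, f s = f t) {x y : ℝ} (hx : x ∈ S) (hy : y ∈ S) : f x = f y := by
  have hd : ∀ t ∈ S, HasDerivAt f 0 t := by
    intro t ht
    exact (hasDerivAt_const t (f t)).congr_of_eventuallyEq (h t ht)
  exact hS.is_const_of_deriv_eq_zero hS' (fun t ht => (hd t ht).differentiableAt.differentiableWithinAt)
    (fun t ht => (hd t ht).deriv) hx hy

theorem PrimOn.unique [IsManifold 𝓜 ∞ N] {α : Form 𝓜 N} {γ : ℝ → N} {S : Set ℝ} {G K : ℝ → ℝ}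
    (hS : IsOpen S) (hS' : IsPreconnected S) (hγ : Continuous γ)
    (hG : PrimOn α γ S G) (hK : PrimOn α γ S K) {x y : ℝ} (hx : x ∈ S) (hy : y ∈ S) :
    G x - K x = G y - K y := by
  refine const_of_loc hS hS' (f := fun t => G t - K t) (fun t ht => ?_) hx hy
  obtain ⟨U, g, h1, h2, h3⟩ := hG t ht
  filter_upwards [h3, hK.any ht hγ.continuousAt h2 h1] with s hs hs'
  linarith

theorem PrimOn.vert [IsManifold 𝓜 ∞ N] {α : Form 𝓜 N} {γ : ℝ → N} {S : Set ℝ} {G : ℝ → ℝ}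
    (hS : IsOpen S) (hS' : IsPreconnected S) (hγ : Continuous γ)
    (hG : PrimOn α γ S G) {U : Set N} {g : N → ℝ} (hg : IsPrim α U g) (hU : ∀ t ∈ S, γ t ∈ U)
    {x y : ℝ} (hx : x ∈ S) (hy : y ∈ S) :
    G x - g (γ x) = G y - g (γ y) :=
  const_of_loc hS hS' (f := fun t => G t - g (γ t))
    (fun t ht => hG.any ht hγ.continuousAt hg (hU t ht)) hx hy

theorem IsPrim.continuousAt {α : Form 𝓜 N} {U : Set N} {g : N → ℝ}
    (h : IsPrim α U g) {y : N} (hy : y ∈ U) : ContinuousAt g y :=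
  (h.smooth.contMDiffAt (h.isOpen.mem_nhds hy)).continuousAt

theorem PrimOn.continuousAt {α : Form 𝓜 N} {γ : ℝ → N} {S : Set ℝ} {G : ℝ → ℝ}
    (hG : PrimOn α γ S G) {t : ℝ} (ht : t ∈ S) (hγ : ContinuousAt γ t) : ContinuousAt G t := by
  obtain ⟨U, g, h1, h2, h3⟩ := hG t ht
  have h4 : ContinuousAt (fun s => g (γ s) + (G t - g (γ t))) t :=
    (ContinuousAt.comp (f := γ) (g := g) (h2.continuousAt h1) hγ).add continuousAt_const
  refine h4.congr ?_
  filter_upwards [h3] with s hs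
  linarith

theorem exists_local {α : Form 𝓜 N} (hα : α ∈ closedForms 𝓜 N) {γ : ℝ → N} (hγ : Continuous γ)
    (t : ℝ) : ∃ ε > 0, ∃ G, PrimOn α γ (Ioo (t - ε) (t + ε)) G := by
  obtain ⟨U, g, hx, h⟩ := hα (γ t)
  obtain ⟨ε, hε, hsub⟩ := Metric.mem_nhds_iff.mp (hγ.continuousAt.preimage_mem_nhds (h.isOpen.mem_nhds hx))
  refine ⟨ε, hε, fun s => g (γ s), fun s hs => ⟨U, g, ?_, h, ?_⟩⟩
  · rw [Real.ball_eq_Ioo] at hsub
    exact hsub hs
  · exact Filter.Eventually.of_forall fun r => by simp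

theorem PrimOn.glue [IsManifold 𝓜 ∞ N] {α : Form 𝓜 N} {γ : ℝ → N} (hγ : Continuous γ)
    {a b c d : ℝ} (h1 : a < c) (h2 : c < b) (h3 : b < d) {G K : ℝ → ℝ}
    (hG : PrimOn α γ (Ioo a b) G) (hK : PrimOn α γ (Ioo c d) K) :
    ∃ L, PrimOn α γ (Ioo a d) L := by
  set m := (c + b) / 2 with hm
  have hmc : c < m := by rw [hm]; linarith
  have hmb : m < b := by rw [hm]; linarith
  have hov : ∀ t ∈ Ioo c b, G t - K t = G m - K m := fun t ht =>
    PrimOn.unique isOpen_Ioo isPreconnected_Ioo hγ (hG.mono (Ioo_subset_Ioo_left h1.le))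
      (hK.mono (Ioo_subset_Ioo_right h3.le)) ht ⟨hmc, hmb⟩
  set L : ℝ → ℝ := fun t => if t ≤ m then G t else K t + (G m - K m) with hL
  have e1 : ∀ t ∈ Ioo a b, L t = G t := by
    intro t ht
    simp only [hL]
    split_ifs with h
    · rfl
    · have := hov t ⟨by linarith, ht.2⟩
      linarith
  have e2 : ∀ t ∈ Ioo c d, L t = K t + (G m - K m) := by
    intro t ht
    simp only [hL]
    split_ifs with h
    · have := hov t ⟨ht.1, by linarith⟩
      linarith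
    · rfl
  refine ⟨L, fun t ht => ?_⟩
  by_cases h : t < b
  · exact (PrimOn.congr 0 isOpen_Ioo hG (fun s hs => by rw [e1 s hs, add_zero])) t ⟨ht.1, h⟩
  · exact (PrimOn.congr (G m - K m) isOpen_Ioo hK e2) t ⟨by linarith [not_lt.mp h], ht.2⟩

theorem exists_Ioo [IsManifold 𝓜 ∞ N] {α : Form 𝓜 N} (hα : α ∈ closedForms 𝓜 N) {γ : ℝ → N}
    (hγ : Continuous γ) (a b : ℝ) : ∃ G, PrimOn α γ (Ioo a b) G := by
  by_contra hb
  set T : Set ℝ := {x | a < x ∧ ∃ G, PrimOn α γ (Ioo a x) G} with hT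
  have hdown : ∀ x ∈ T, x < b := by
    rintro x ⟨_, G, hG⟩
    by_contra hx
    exact hb ⟨G, hG.mono (Ioo_subset_Ioo_right (not_lt.mp hx))⟩
  obtain ⟨ε0, hε0, G0, hG0⟩ := exists_local hα hγ a
  have hne : a + ε0 ∈ T := ⟨by linarith, G0, hG0.mono (Ioo_subset_Ioo_left (by linarith))⟩
  have hbdd : BddAbove T := ⟨b, fun x hx => (hdown x hx).le⟩
  set s := sSup T with hs
  have hs1 : a + ε0 ≤ s := le_csSup hbdd hne
  obtain ⟨ε, hε, K, hK⟩ := exists_local hα hγ s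
  have key : s + ε ∈ T := by
    refine ⟨by linarith, ?_⟩
    by_cases h : s - ε ≤ a
    · exact ⟨K, hK.mono (Ioo_subset_Ioo_left h)⟩
    · push Not at h
      obtain ⟨x, ⟨_, G, hG⟩, hx⟩ := exists_lt_of_lt_csSup ⟨_, hne⟩ (show s - ε < sSup T by linarith)
      have hxs : x ≤ s := le_csSup hbdd ⟨‹_›, G, hG⟩
      exact PrimOn.glue hγ h hx (by linarith) hG hK
  have := le_csSup hbdd key
  linarith

theorem exists_global [IsManifold 𝓜 ∞ N] {α : Form 𝓜 N} (hα : α ∈ closedForms 𝓜 N) {γ : ℝ → N}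
    (hγ : Continuous γ) : ∃ G, PrimOn α γ univ G := by
  choose G hG using fun n : ℕ => exists_Ioo hα hγ (-((n : ℝ) + 1)) (n + 1)
  have hmono : ∀ m n : ℕ, m ≤ n → ∀ t ∈ Ioo (-((m : ℝ) + 1)) (m + 1), G m t - G m 0 = G n t - G n 0 := by
    intro m n hmn t ht
    have hmn' : (m : ℝ) ≤ n := by exact_mod_cast hmn
    have := PrimOn.unique isOpen_Ioo isPreconnected_Ioo hγ (hG m)
      ((hG n).mono (Ioo_subset_Ioo (by linarith) (by linarith))) ht
      (show (0 : ℝ) ∈ Ioo (-((m : ℝ) + 1)) (m + 1) from ⟨by have := Nat.cast_nonneg (α := ℝ) m; linarith,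
        by have := Nat.cast_nonneg (α := ℝ) m; linarith⟩)
    linarith
  set L : ℝ → ℝ := fun t => G ⌈|t|⌉₊ t - G ⌈|t|⌉₊ 0 with hL
  have hmem : ∀ t : ℝ, t ∈ Ioo (-((⌈|t|⌉₊ : ℝ) + 1)) ((⌈|t|⌉₊ : ℝ) + 1) := by
    intro t
    have h1 := Nat.le_ceil |t|
    have h2 := neg_abs_le t
    have h3 := le_abs_self t
    constructor <;> linarith
  refine ⟨L, fun t _ => ?_⟩
  set n := ⌈|t|⌉₊ + 1 with hn
  have hev : ∀ᶠ s in 𝓝 t, L s = G n s - G n 0 := by
    have h1 : ∀ᶠ s in 𝓝 t, |s| < (⌈|t|⌉₊ : ℝ) + 1 := by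
      have : |t| < (⌈|t|⌉₊ : ℝ) + 1 := by linarith [Nat.le_ceil |t|]
      exact (continuous_abs.continuousAt).eventually (gt_mem_nhds this)
    filter_upwards [h1] with s hs
    refine hmono _ _ ?_ s (hmem s)
    rw [Nat.ceil_le, hn]
    push_cast
    linarith
  have htn : t ∈ Ioo (-((n : ℝ) + 1)) (n + 1) := by
    have := hmem t
    rw [hn]
    push_cast
    constructor <;> linarith [this.1, this.2]
  obtain ⟨U, g, h1, h2, h3⟩ := hG n t htn
  refine ⟨U, g, h1, h2, ?_⟩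
  filter_upwards [h3, hev] with s hs hs'
  rw [hs', hev.self_of_nhds]
  linarith

end Pool.Agent.R552.Hur
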